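import Mathlib
import Pool.Agent.W651.HI.Defs

/-!
# Hausdorff limits of continua
-/

set_option autoImplicit false

namespace Pool.Agent.W374.HI.Lim

open Set Topology Metric Filter TopologicalSpace

theorem main : Pool.Agent.W651.HI.S_LIM := by
  intro L _ _ A hc hn hp
  let x : ℕ → NonemptyCompacts L := fun n => ⟨⟨A n, (hc n).isCompact⟩, hn n⟩
  obtain ⟨b, φ, hφ, hlim⟩ := CompactSpace.tendsto_subseq x
  have hfin : ∀ n, hausdorffEDist (A (φ n)) (b : Set L) ≠ ⊤ := fun n =>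
    hausdorffEDist_ne_top_of_nonempty_of_bounded (hn _) b.nonempty (hc _).isCompact.isBounded
      b.isCompact.isBounded
  have hthick : ∀ δ : ℝ, 0 < δ → ∀ᶠ n in atTop,
      A (φ n) ⊆ thickening δ (b : Set L) ∧ (b : Set L) ⊆ thickening δ (A (φ n)) := by
    intro δ hδ
    have h1 := (Metric.tendsto_nhds.1 hlim) δ hδ
    filter_upwards [h1] with n hn1
    have h2 : hausdorffDist (A (φ n)) (b : Set L) < δ := hn1
    constructor
    · intro y hy
      obtain ⟨z, hz, hyz⟩ := exists_dist_lt_of_hausdorffDist_lt hy h2 (hfin n)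
      exact mem_thickening_iff.2 ⟨z, hz, hyz⟩
    · intro y hy
      obtain ⟨z, hz, hyz⟩ := exists_dist_lt_of_hausdorffDist_lt' hy h2 (hfin n)
      exact mem_thickening_iff.2 ⟨z, hz, by rwa [dist_comm]⟩
  refine ⟨φ, (b : Set L), hφ, b.isCompact.isClosed, b.nonempty, ?_, hthick⟩
  rw [isPreconnected_closed_iff]
  intro P Q hP hQ hcov hPn hQn
  by_contra hemp
  rw [not_nonempty_iff_eq_empty] at hemp
  have hPc : IsCompact ((b : Set L) ∩ P) := b.isCompact.inter_right hP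
  have hQc : IsCompact ((b : Set L) ∩ Q) := b.isCompact.inter_right hQ
  have hdisj : Disjoint ((b : Set L) ∩ P) ((b : Set L) ∩ Q) := by
    rw [Set.disjoint_iff]
    rintro y ⟨⟨h1, h2⟩, ⟨_, h3⟩⟩
    have : y ∈ (b : Set L) ∩ (P ∩ Q) := ⟨h1, h2, h3⟩
    rw [hemp] at this
    exact this
  obtain ⟨δ, hδ, hd⟩ := hdisj.exists_thickenings hPc hQc.isClosed
  obtain ⟨n, hn1, hn2⟩ := (hthick δ hδ).exists
  have hcov2 : A (φ n) ⊆ thickening δ ((b : Set L) ∩ P) ∪ thickening δ ((b : Set L) ∩ Q) := by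
    rw [← thickening_union]
    refine hn1.trans (thickening_subset_of_subset δ ?_)
    intro y hy
    rcases hcov hy with h | h
    · exact Or.inl ⟨hy, h⟩
    · exact Or.inr ⟨hy, h⟩
  have hmeet : ∀ R : Set L, ((b : Set L) ∩ R).Nonempty →
      (A (φ n) ∩ thickening δ ((b : Set L) ∩ R)).Nonempty := by
    rintro R ⟨y, hy⟩
    obtain ⟨z, hz, hyz⟩ := mem_thickening_iff.1 (hn2 hy.1)
    exact ⟨z, hz, mem_thickening_iff.2 ⟨y, hy, by rwa [dist_comm]⟩⟩
  obtain ⟨y, -, hy1, hy2⟩ := hp (φ n) _ _ isOpen_thickening isOpen_thickening hcov2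
    (hmeet P hPn) (hmeet Q hQn)
  exact Set.disjoint_left.1 hd hy1 hy2

end Pool.Agent.W374.HI.Lim
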