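import Mathlib
import Pool.Agent.W651.HI.Defs

/-!
# A size function on the subsets of a compact metric space
-/

set_option autoImplicit false

namespace Pool.Agent.W374.HI.Size

open Set Topology Metric

variable {L : Type} [MetricSpace L]

/-- the bump -/
noncomputable def bp (a : ℕ → L) (m : ℕ) (x : L) : ℝ :=
  max 0 (1 / ((Nat.unpair m).2 + 1 : ℝ) - dist x (a (Nat.unpair m).1))

lemma bp_lip (a : ℕ → L) (m : ℕ) (x y : L) : dist (bp a m x) (bp a m y) ≤ dist x y := by
  unfold bp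
  rw [Real.dist_eq, max_comm 0, max_comm 0]
  refine (abs_max_sub_max_le_abs _ _ 0).trans ?_
  have h1 := dist_triangle x y (a (Nat.unpair m).1)
  have h2 := dist_triangle y x (a (Nat.unpair m).1)
  rw [dist_comm y x] at h2
  rw [abs_le]
  constructor <;> linarith

lemma bp_nonneg (a : ℕ → L) (m : ℕ) (x : L) : 0 ≤ bp a m x := le_max_left _ _

lemma bp_le (a : ℕ → L) (m : ℕ) (x : L) : bp a m x ≤ 1 := by
  unfold bp
  refine max_le zero_le_one ?_
  have h1 : 1 / ((Nat.unpair m).2 + 1 : ℝ) ≤ 1 := by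
    rw [div_le_one (by positivity)]
    have : (0 : ℝ) ≤ ((Nat.unpair m).2 : ℝ) := Nat.cast_nonneg _
    linarith
  have h2 : 0 ≤ dist x (a (Nat.unpair m).1) := dist_nonneg
  linarith

lemma bp_bdd (a : ℕ → L) (m : ℕ) (A : Set L) : Bornology.IsBounded (bp a m '' A) := by
  refine (Metric.isBounded_Icc (0:ℝ) 1).subset ?_
  rintro _ ⟨x, _, rfl⟩
  exact ⟨bp_nonneg a m x, bp_le a m x⟩

lemma dm_le (a : ℕ → L) (m : ℕ) (A : Set L) : diam (bp a m '' A) ≤ 1 := by
  refine Metric.diam_le_of_forall_dist_le zero_le_one ?_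
  rintro _ ⟨x, _, rfl⟩ _ ⟨y, _, rfl⟩
  rw [Real.dist_eq, abs_le]
  have h1 := bp_nonneg a m x
  have h2 := bp_le a m x
  have h3 := bp_nonneg a m y
  have h4 := bp_le a m y
  constructor <;> linarith

/-- the size -/
noncomputable def sz (a : ℕ → L) (A : Set L) : ℝ := ∑' m, (1 / 2 : ℝ) ^ m * diam (bp a m '' A)

lemma sz_summable (a : ℕ → L) (A : Set L) :
    Summable fun m => (1 / 2 : ℝ) ^ m * diam (bp a m '' A) := by
  refine Summable.of_nonneg_of_le (fun m => by positivity) (fun m => ?_)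
    (summable_geometric_of_lt_one (by norm_num : (0:ℝ) ≤ 1 / 2) (by norm_num))
  calc (1 / 2 : ℝ) ^ m * diam (bp a m '' A) ≤ (1 / 2 : ℝ) ^ m * 1 :=
        mul_le_mul_of_nonneg_left (dm_le a m A) (by positivity)
    _ = _ := mul_one _

lemma sz_mono (a : ℕ → L) {A B : Set L} (h : A ⊆ B) : sz a A ≤ sz a B := by
  refine Summable.tsum_le_tsum (fun m => ?_) (sz_summable a A) (sz_summable a B)
  exact mul_le_mul_of_nonneg_left (diam_mono (image_mono h) (bp_bdd a m B)) (by positivity)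

lemma sz_lt {a : ℕ → L} (ha : DenseRange a) {A B : Set L} (hA : IsClosed A) (hn : A.Nonempty)
    (h : A ⊂ B) : sz a A < sz a B := by
  obtain ⟨b, hbB, hbA⟩ := exists_of_ssubset h
  obtain ⟨r, hr, hball⟩ := Metric.isOpen_iff.1 hA.isOpen_compl b hbA
  obtain ⟨k, hk⟩ := exists_nat_one_div_lt (by positivity : 0 < r / 2)
  have hk0 : (0:ℝ) < 1 / ((k : ℝ) + 1) := by positivity
  obtain ⟨n, hn'⟩ := ha.exists_dist_lt b (by positivity : 0 < 1 / ((k : ℝ) + 1) / 2)
  have hm1 : (Nat.unpair (Nat.pair n k)).1 = n := by rw [Nat.unpair_pair]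
  have hm2 : (Nat.unpair (Nat.pair n k)).2 = k := by rw [Nat.unpair_pair]
  have hz : ∀ x ∈ A, bp a (Nat.pair n k) x = 0 := by
    intro x hx
    unfold bp
    rw [hm1, hm2]
    apply max_eq_left
    have h1 : r ≤ dist x b := by
      by_contra hlt
      exact hball (show x ∈ ball b r from not_le.1 hlt) hx
    have h2 := dist_triangle x (a n) b
    rw [dist_comm (a n) b] at h2
    linarith
  have hb : 0 < bp a (Nat.pair n k) b := by
    unfold bp
    rw [hm1, hm2]
    apply lt_max_of_lt_right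
    linarith
  obtain ⟨x0, hx0⟩ := hn
  refine Summable.tsum_lt_tsum (i := Nat.pair n k) (fun m => ?_) ?_ (sz_summable a A)
    (sz_summable a B)
  · exact mul_le_mul_of_nonneg_left (diam_mono (image_mono h.1) (bp_bdd a m B)) (by positivity)
  · have h1 : diam (bp a (Nat.pair n k) '' A) = 0 := by
      apply diam_subsingleton
      rintro _ ⟨x, hx, rfl⟩ _ ⟨y, hy, rfl⟩
      rw [hz x hx, hz y hy]
    have h2 := dist_le_diam_of_mem (bp_bdd a (Nat.pair n k) B) (mem_image_of_mem _ hbB)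
      (mem_image_of_mem _ (h.1 hx0))
    rw [hz x0 hx0, Real.dist_eq, sub_zero, abs_of_pos hb] at h2
    rw [h1, mul_zero]
    have : 0 < diam (bp a (Nat.pair n k) '' B) := lt_of_lt_of_le hb h2
    positivity

lemma sz_thick (a : ℕ → L) {A B : Set L} {δ : ℝ} (hδ : 0 < δ) (h : A ⊆ thickening δ B) :
    sz a A ≤ sz a B + 4 * δ := by
  have hg : HasSum (fun m : ℕ => (1 / 2 : ℝ) ^ m * (2 * δ)) (4 * δ) := by
    have := (hasSum_geometric_two).mul_right (2 * δ)
    have e : (4 : ℝ) * δ = 2 * (2 * δ) := by ring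
    rw [e]
    exact this
  have hsum := (sz_summable a B).add hg.summable
  have e : sz a B + 4 * δ = ∑' m, ((1 / 2 : ℝ) ^ m * diam (bp a m '' B) +
      (1 / 2 : ℝ) ^ m * (2 * δ)) := by
    rw [Summable.tsum_add (sz_summable a B) hg.summable, hg.tsum_eq]; rfl
  rw [e]
  refine Summable.tsum_le_tsum (fun m => ?_) (sz_summable a A) hsum
  rw [← mul_add]
  refine mul_le_mul_of_nonneg_left ?_ (by positivity)
  refine diam_le_of_forall_dist_le (by positivity) ?_
  rintro _ ⟨x, hx, rfl⟩ _ ⟨y, hy, rfl⟩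
  obtain ⟨x', hx', hxx⟩ := mem_thickening_iff.1 (h hx)
  obtain ⟨y', hy', hyy⟩ := mem_thickening_iff.1 (h hy)
  have h1 := bp_lip a m x x'
  have h2 := bp_lip a m y' y
  rw [dist_comm y' y] at h2
  have h3 := dist_le_diam_of_mem (bp_bdd a m B) (mem_image_of_mem (bp a m) hx')
    (mem_image_of_mem (bp a m) hy')
  have h4 := dist_triangle4 (bp a m x) (bp a m x') (bp a m y') (bp a m y)
  linarith

theorem main : Pool.Agent.W651.HI.S_SIZE := by
  intro L _ _
  rcases isEmpty_or_nonempty L with hL | hL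
  · refine ⟨fun _ => 0, fun _ _ _ => le_rfl, ?_, ?_, fun _ => rfl⟩
    · rintro A B _ ⟨x, _⟩ _
      exact (hL.false x).elim
    · intro ε hε
      exact ⟨1, one_pos, fun _ _ _ => by simpa using hε.le⟩
  · refine ⟨sz (TopologicalSpace.denseSeq L), fun A B h => sz_mono _ h,
      fun A B h1 h2 h3 => sz_lt (TopologicalSpace.denseRange_denseSeq L) h1 h2 h3, ?_, ?_⟩
    · intro ε hε
      refine ⟨ε / 4, by positivity, fun A B h => ?_⟩
      have := sz_thick (TopologicalSpace.denseSeq L) (by positivity : 0 < ε / 4) h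
      linarith
    · intro x
      unfold sz
      simp

end Pool.Agent.W374.HI.Size
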